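import Pool.Agent.Gpc.Defs

/-!
# Surfaces glued from two convex polygons with the same sides
-/

set_option autoImplicit false

namespace Pool.Agent.Gpd

open Set Pool.Agent.Gpc

/-- A point `(true, z)` is the point `z` of the front, the convex hull of the `p i`, and `(false, z)` is
the point `z` of the back, the convex hull of the `q i`. The edge `i` of the front is glued to the edge `i`
of the back. -/
def Glued {n : ℕ} (p q : ZMod n → ℂ) (u v : Bool × ℂ) : Prop :=
  ∃ i : ZMod n, ∃ t ∈ Icc (0 : ℝ) 1, u = (true, ed p i t) ∧ v = (false, ed q i t)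

/-- Consecutive points of a path are on the same side or glued. -/
def Step {n : ℕ} (p q : ZMod n → ℂ) (u v : Bool × ℂ) : Prop :=
  u.1 = v.1 ∨ Glued p q u v ∨ Glued p q v u

/-- Polygonal paths on the surface. -/
def IsPath {n : ℕ} (p q : ZMod n → ℂ) (l : List (Bool × ℂ)) : Prop :=
  (∀ u ∈ l, u.2 ∈ convexHull ℝ (range (if u.1 then p else q))) ∧ l.IsChain (Step p q)

/-- The point `u` of the surface is on the segment from `x` to `y` in the front. -/
def OnSegment {n : ℕ} (p q : ZMod n → ℂ) (x y : ℂ) (u : Bool × ℂ) : Prop :=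
  (∃ z ∈ segment ℝ x y, u = (true, z)) ∨
    ∃ i : ZMod n, ∃ t ∈ Icc (0 : ℝ) 1, ed p i t ∈ segment ℝ x y ∧ u = (false, ed q i t)

end Pool.Agent.Gpd
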