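import Pool.Agent.Gpd.Path
import Pool.Agent.Gpc.Rows
import Pool.Agent.Gpc.Reg

set_option autoImplicit false

namespace Pool.Agent.Gpd

open Set Pool.Agent.Gpc

variable {n : ℕ} {p₀ : ZMod n → ℂ}

theorem ed_sub (f g : ZMod n → ℂ) (i : ZMod n) (t : ℝ) :
    ed f i t - ed g i t = ed (fun k => f k - g k) i t := by
  unfold ed
  simp only [smul_sub]
  ring

/-- Both boundaries are near that of `p₀`; `lip`. -/
theorem seam (hn : 3 ≤ n) (hp : ConvexPolygon p₀) {δ : ℝ} (hδ : 0 < δ) (hδ1 : δ ≤ 1) :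
    ∃ ε : ℝ, 0 < ε ∧ ∀ p q : ZMod n → ℂ, (∀ i, dist (p i) (p₀ i) < ε) →
      (∀ i, dist (q i) (p₀ i) < ε) →
      ∀ i j : ZMod n, ∀ t ∈ Icc (0 : ℝ) 1, ∀ s ∈ Icc (0 : ℝ) 1,
        (1 - δ) * dist (ed p i t) (ed p j s) ≤ dist (ed q i t) (ed q j s) := by
  obtain ⟨C, hC, h⟩ := lip hn hp
  refine ⟨δ / (2 * C), by positivity, fun p q hpp hqq i j t ht s hs => ?_⟩
  have h0 : 0 ≤ δ / (2 * C) := by positivity
  have hCe : C * (δ / (2 * C)) = δ / 2 := by field_simp
  have e1 := h (δ / (2 * C)) h0 (fun k => p k - p₀ k)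
    (fun k => by rw [← dist_eq_norm]; exact (hpp k).le) i j t ht s hs
  have e2 := h (δ / (2 * C)) h0 (fun k => q k - p₀ k)
    (fun k => by rw [← dist_eq_norm]; exact (hqq k).le) i j t ht s hs
  rw [hCe, ← ed_sub, ← ed_sub] at e1 e2
  rw [dist_eq_norm, dist_eq_norm]
  have e3 : ed p i t - ed p j s = (ed p₀ i t - ed p₀ j s) +
      (ed p i t - ed p₀ i t - (ed p j s - ed p₀ j s)) := by ring
  have e4 : ed p₀ i t - ed p₀ j s = (ed q i t - ed q j s) -
      (ed q i t - ed p₀ i t - (ed q j s - ed p₀ j s)) := by ring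
  have e5 : ‖ed p i t - ed p j s‖ ≤ (1 + δ / 2) * ‖ed p₀ i t - ed p₀ j s‖ := by
    rw [e3]
    refine (norm_add_le _ _).trans ?_
    linarith
  have e6 : ‖ed p₀ i t - ed p₀ j s‖ ≤ ‖ed q i t - ed q j s‖ +
      δ / 2 * ‖ed p₀ i t - ed p₀ j s‖ := by
    conv_lhs => rw [e4]
    refine (norm_sub_le _ _).trans ?_
    linarith
  have e7 : 0 ≤ ‖ed p₀ i t - ed p₀ j s‖ := norm_nonneg _
  have e8 := mul_le_mul_of_nonneg_left e5 (by linarith : 0 ≤ 1 - δ)
  have e9 : 0 ≤ δ ^ 2 / 2 * ‖ed p₀ i t - ed p₀ j s‖ := by positivity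
  have e10 : (1 - δ) * ((1 + δ / 2) * ‖ed p₀ i t - ed p₀ j s‖) =
      (1 - δ / 2) * ‖ed p₀ i t - ed p₀ j s‖ - δ ^ 2 / 2 * ‖ed p₀ i t - ed p₀ j s‖ := by ring
  linarith

theorem main (hn : 3 ≤ n) (hp : ConvexPolygon p₀) {x₀ : ℂ}
    (hx : x₀ ∈ interior (convexHull ℝ (range p₀))) :
    ∃ ε η : ℝ, 0 < ε ∧ 0 < η ∧ ∀ p q : ZMod n → ℂ, (∀ i, dist (p i) (p₀ i) < ε) →
      (∀ i, dist (q i) (p₀ i) < ε) →
      ConvexPolygon p ∧ ConvexPolygon q ∧ ∀ x : ℂ, dist x x₀ < ε → x ∈ convexHull ℝ (range p) ∧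
        ∀ (y : ℂ) (l : List (Bool × ℂ)), IsPath p q l → l.head? = some (true, x) →
          l.getLast? = some (true, y) → dist x y + η * lenBack l ≤ len l ∧
            (len l = dist x y → ∀ u ∈ l, OnSegment p q x y u) := by
  obtain ⟨ε1, ρ, R, hε1, hρ, hR, h1⟩ := opn hn hp (int hn hp hx)
  obtain ⟨ε2, hε2, h2⟩ := hul hn hx
  have hc0 : 0 < ρ ^ 2 / (64 * R ^ 4) := by positivity
  obtain ⟨c, hc⟩ : ∃ c : ℝ, c = min (ρ ^ 2 / (64 * R ^ 4)) 1 := ⟨_, rfl⟩
  have hc1 : 0 < c := by rw [hc]; exact lt_min hc0 one_pos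
  have hc2 : c ≤ 1 := by rw [hc]; exact min_le_right _ _
  have hc3 : c ≤ ρ ^ 2 / (64 * R ^ 4) := by rw [hc]; exact min_le_left _ _
  obtain ⟨ε3, hε3, h3⟩ := seam hn hp (δ := c / 2) (by linarith) (by linarith)
  refine ⟨min ε1 (min ε2 ε3), c / 4, lt_min hε1 (lt_min hε2 hε3), by linarith,
    fun p q hpp hqq => ?_⟩
  obtain ⟨h4, h5, h6⟩ := h1 p fun i => (hpp i).trans_le (min_le_left _ _)
  obtain ⟨h4', -, -⟩ := h1 q fun i => (hqq i).trans_le (min_le_left _ _)
  refine ⟨h4, h4', fun x hxx => ⟨?_, ?_⟩⟩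
  · exact h2 p (fun i => (hpp i).trans_le ((min_le_right _ _).trans (min_le_left _ _))) x
      (hxx.trans_le ((min_le_right _ _).trans (min_le_left _ _)))
  · intro y l hl hh he
    obtain ⟨h7, h8⟩ := h6 x (hxx.trans_le (min_le_left _ _))
    have hseam := h3 p q (fun i => (hpp i).trans_le ((min_le_right _ _).trans (min_le_right _ _)))
      (fun i => (hqq i).trans_le ((min_le_right _ _).trans (min_le_right _ _)))
    have key : ∀ i j : ZMod n, ∀ t ∈ Icc (0 : ℝ) 1, ∀ s ∈ Icc (0 : ℝ) 1,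
        dist x (ed p j s) ≤ dist x (ed p i t) + (1 - c / 2) * dist (ed q i t) (ed q j s) := by
      intro i j t ht s hs'
      have e1 := gap h4 hR hρ h5 h7 h8 i j ht hs'
      have e2 := hseam i j t ht s hs'
      have e3 : 0 ≤ dist (ed p i t) (ed p j s) := dist_nonneg
      have e4 : (1 - ρ ^ 2 / (64 * R ^ 4)) * dist (ed p i t) (ed p j s) ≤
          (1 - c) * dist (ed p i t) (ed p j s) :=
        mul_le_mul_of_nonneg_right (by linarith) e3
      have e5 : (1 - c / 2) * ((1 - c / 2) * dist (ed p i t) (ed p j s)) ≤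
          (1 - c / 2) * dist (ed q i t) (ed q j s) :=
        mul_le_mul_of_nonneg_left e2 (by linarith)
      have e6 : (1 - c) * dist (ed p i t) (ed p j s) ≤
          (1 - c / 2) * ((1 - c / 2) * dist (ed p i t) (ed p j s)) := by
        rw [← mul_assoc]
        refine mul_le_mul_of_nonneg_right ?_ e3
        nlinarith [sq_nonneg c]
      linarith
    have inj : ∀ i j : ZMod n, ∀ t ∈ Icc (0 : ℝ) 1, ∀ s ∈ Icc (0 : ℝ) 1,
        ed q i t = ed q j s → ed p i t = ed p j s := by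
      intro i j t ht s hs' h
      have e2 := hseam i j t ht s hs'
      rw [h, dist_self] at e2
      have e3 : 0 ≤ dist (ed p i t) (ed p j s) := dist_nonneg
      exact dist_le_zero.1 (by nlinarith)
    have key' : ∀ i j : ZMod n, ∀ t ∈ Icc (0 : ℝ) 1, ∀ s ∈ Icc (0 : ℝ) 1,
        dist x (ed p j s) ≤ dist x (ed p i t) + (1 - c / 4) * dist (ed q i t) (ed q j s) := by
      intro i j t ht s hs'
      have e := key i j t ht s hs'
      have e3 : 0 ≤ dist (ed q i t) (ed q j s) := dist_nonneg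
      nlinarith
    constructor
    · have e := (pathI (x := x) (y := y) (lam := 1 - c / 4) (by linarith) (by linarith) key' l
        hl.2 he).1 x hh
      rw [dist_self] at e
      have : 1 - (1 - c / 4) = c / 4 := by ring
      rw [this] at e
      linarith
    · intro hlen
      exact ((tight (x := x) (y := y) (mu := 1 - c / 2) (lam := 1 - c / 4) (by linarith)
        (by linarith) (by linarith) key inj l hl.2 he).1 x hh (by rw [dist_self, hlen, zero_add])).2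

/-- `p` from `regE`, `q i = reg (-1) * p (i + 1)`. -/
theorem regF (n : ℕ) [NeZero n] (hn : 5 ≤ n) {ε : ℝ} (hε : 0 < ε) :
    ∃ p q : ZMod n → ℂ, (∀ i, dist (p i) (reg n i) < ε) ∧ (∀ i, dist (q i) (reg n i) < ε) ∧
      (∀ i, dist (p i) (p (i + 1)) = dist (q i) (q (i + 1))) ∧
      (∀ i j, dist (p (i + 1)) (p (j + 1)) = dist (q i) (q j)) ∧
      ¬ ∀ i j, dist (p i) (p j) = dist (q i) (q j) := by
  obtain ⟨p, h1, h2, h3⟩ := regE n hn hε
  have hw : ‖reg n (-1)‖ = 1 := AddChar.norm_apply _ _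
  have hd : ∀ z w : ℂ, dist (reg n (-1) * z) (reg n (-1) * w) = dist z w := by
    intro z w
    rw [dist_eq_norm, ← mul_sub, norm_mul, hw, one_mul, ← dist_eq_norm]
  refine ⟨p, fun i => reg n (-1) * p (i + 1), h1, fun i => ?_, fun i => ?_, fun i j => ?_, ?_⟩
  · have e : reg n i = reg n (-1) * reg n (i + 1) := by
      show ZMod.stdAddChar i = ZMod.stdAddChar (-1) * ZMod.stdAddChar (i + 1)
      rw [← AddChar.map_add_eq_mul]
      congr 1
      ring
    rw [e, hd]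
    exact h1 (i + 1)
  · rw [hd, h2 i (i + 1)]
  · rw [hd]
  · intro h
    apply h3
    intro i j
    have := h i j
    rw [hd] at this
    exact this.symm

end Pool.Agent.Gpd
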