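import Pool.Agent.Gpd.Defs

set_option autoImplicit false

namespace Pool.Agent.Gpd

open Set Pool.Agent.Gpc

variable {n : ℕ} {p q : ZMod n → ℂ}

-- BEGIN row pathI
/-- Induction on l. Head (true, z), next (true, z'): triangle inequality. (true, ed p i t) to (false, ed q i t): the
second half with this i, t. (false, w) to (false, w'): lam ‖B - w'‖ ≤ lam ‖B - w‖ + lam ‖w - w'‖. (false, B(j,s)) to
(true, ed p j s): key. One point: it is (true, y). -/
theorem pathI {x y : ℂ} {lam : ℝ} (h0 : 0 ≤ lam) (h1 : lam ≤ 1)
    (key : ∀ i j : ZMod n, ∀ t ∈ Icc (0 : ℝ) 1, ∀ s ∈ Icc (0 : ℝ) 1,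
      dist x (ed p j s) ≤ dist x (ed p i t) + lam * dist (ed q i t) (ed q j s))
    (l : List (Bool × ℂ)) (hl : l.IsChain (Step p q)) (he : l.getLast? = some (true, y)) :
    (∀ z, l.head? = some (true, z) → dist x y + (1 - lam) * lenBack l ≤ dist x z + len l) ∧
    (∀ w, l.head? = some (false, w) → ∀ i : ZMod n, ∀ t ∈ Icc (0 : ℝ) 1,
      dist x y + (1 - lam) * lenBack l ≤
        dist x (ed p i t) + lam * dist (ed q i t) w + len l) := by
  induction l with
  | nil => simp at he
  | cons u l ih =>
    cases l with
    | nil =>
      have hu : u = (true, y) := by simpa using he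
      subst hu
      refine ⟨fun z hz => ?_, fun w hw => ?_⟩
      · have hz' : y = z := by simpa using hz
        subst hz'
        simp [len, lenBack]
      · exact absurd hw (by simp)
    | cons v l =>
      rw [List.isChain_cons_cons] at hl
      have he' : (v :: l).getLast? = some (true, y) := by simpa using he
      obtain ⟨hA, hB⟩ := ih hl.2 he'
      obtain ⟨hst, -⟩ := hl
      obtain ⟨ub, uz⟩ := u
      obtain ⟨vb, vz⟩ := v
      have e1 : len ((ub, uz) :: (vb, vz) :: l) =
        (if ub = vb then dist uz vz else 0) + len ((vb, vz) :: l) := rfl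
      have e2 : lenBack ((ub, uz) :: (vb, vz) :: l) =
        (if ub = false ∧ vb = false then dist uz vz else 0) + lenBack ((vb, vz) :: l) := rfl
      rw [e1, e2]
      refine ⟨fun z hz => ?_, fun w hw i t ht => ?_⟩
      · have hz' : ub = true ∧ uz = z := by simpa using hz
        obtain ⟨rfl, rfl⟩ := hz'
        rcases hst with h | ⟨i, t, ht, h3, h4⟩ | ⟨i, t, ht, h3, h4⟩
        · have hv : vb = true := h.symm
          subst hv
          have h1 := hA vz rfl
          have h2 := dist_triangle x uz vz
          rw [if_pos rfl, if_neg (by simp), zero_add]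
          linarith
        · have h5 : uz = ed p i t := congrArg Prod.snd h3
          have h6 : vb = false := congrArg Prod.fst h4
          have h7 : vz = ed q i t := congrArg Prod.snd h4
          subst h6
          have h1 := hB vz rfl i t ht
          rw [← h7, dist_self, mul_zero, add_zero, ← h5] at h1
          rw [if_neg (by simp), if_neg (by simp), zero_add, zero_add]
          exact h1
        · have h5 : true = false := congrArg Prod.fst h4
          exact absurd h5 (by simp)
      · have hw' : ub = false ∧ uz = w := by simpa using hw
        obtain ⟨rfl, rfl⟩ := hw'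
        rcases hst with h | ⟨j, s, hs, h3, h4⟩ | ⟨j, s, hs, h3, h4⟩
        · have hv : vb = false := h.symm
          subst hv
          have h1 := hB vz rfl i t ht
          have h2 := mul_le_mul_of_nonneg_left (dist_triangle (ed q i t) uz vz) h0
          rw [if_pos rfl, if_pos ⟨rfl, rfl⟩]
          nlinarith
        · have h5 : false = true := congrArg Prod.fst h3
          exact absurd h5 (by simp)
        · have h5 : vz = ed p j s := congrArg Prod.snd h3
          have h6 : vb = true := congrArg Prod.fst h3
          have h7 : uz = ed q j s := congrArg Prod.snd h4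
          subst h6
          have h1 := hA vz rfl
          have h2 := key i j t ht s hs
          rw [← h7, ← h5] at h2
          rw [if_neg (by simp), if_neg (by simp), zero_add, zero_add]
          linarith
-- END row pathI

-- BEGIN row tight
/-- Induction on l; F = ed p, B = ed q. Second half: w = B(i,t), F(i,t) is in the segment and all u in l are on it.
(true, z), next (true, z'): dist x z' + len l' ≤ dist x y, so the first half for l'; by `pathI` for l' (lam) it is an equality,
so dist x z + dist z z' = dist x z', z in [x, z'] in [x, y] (`dist_add_dist_eq_iff`, Wbtw). (true, F(i,t)) to (false, B(i,t)):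
second half. (false, w), next (false, w'): second half for l' gives w' = B(i,t); with `pathI` for l' the step w w' has length 0
(lam dist B w + dist w B ≤ 0). (false, B(j,s)) to (true, F(j,s)): key (mu) and `pathI` for l' give (lam - mu) dist B(i,t) B(j,s) ≤ 0, so
B(i,t) = B(j,s) = w, F(i,t) = F(j,s) by inj; first half for l'. `pathI` needs key with lam: it follows from mu ≤ lam. -/
theorem tight {x y : ℂ} {mu lam : ℝ} (h0 : 0 ≤ mu) (h1 : mu < lam) (h2 : lam ≤ 1)
    (key : ∀ i j : ZMod n, ∀ t ∈ Icc (0 : ℝ) 1, ∀ s ∈ Icc (0 : ℝ) 1,
      dist x (ed p j s) ≤ dist x (ed p i t) + mu * dist (ed q i t) (ed q j s))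
    (inj : ∀ i j : ZMod n, ∀ t ∈ Icc (0 : ℝ) 1, ∀ s ∈ Icc (0 : ℝ) 1,
      ed q i t = ed q j s → ed p i t = ed p j s)
    (l : List (Bool × ℂ)) (hl : l.IsChain (Step p q)) (he : l.getLast? = some (true, y)) :
    (∀ z, l.head? = some (true, z) → dist x z + len l ≤ dist x y →
      z ∈ segment ℝ x y ∧ ∀ u ∈ l, OnSegment p q x y u) ∧
    (∀ w, l.head? = some (false, w) → ∀ i : ZMod n, ∀ t ∈ Icc (0 : ℝ) 1,
      dist x (ed p i t) + lam * dist (ed q i t) w + len l ≤ dist x y →
      w = ed q i t ∧ ed p i t ∈ segment ℝ x y ∧ ∀ u ∈ l, OnSegment p q x y u) := by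
  have key1 : ∀ i j : ZMod n, ∀ t ∈ Icc (0 : ℝ) 1, ∀ s ∈ Icc (0 : ℝ) 1,
      dist x (ed p j s) ≤ dist x (ed p i t) + 1 * dist (ed q i t) (ed q j s) := by
    intro i j t ht s hs
    have e1 := key i j t ht s hs
    have e2 : 0 ≤ dist (ed q i t) (ed q j s) := dist_nonneg
    nlinarith
  induction l with
  | nil => simp at he
  | cons u l ih =>
    cases l with
    | nil =>
      have hu : u = (true, y) := by simpa using he
      subst hu
      refine ⟨fun z hz _ => ?_, fun w hw => ?_⟩
      · have hz' : y = z := by simpa using hz
        subst hz'
        refine ⟨right_mem_segment ℝ x y, fun v hv => ?_⟩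
        rw [List.mem_singleton] at hv
        subst hv
        exact Or.inl ⟨y, right_mem_segment ℝ x y, rfl⟩
      · simp at hw
    | cons v l =>
      obtain ⟨hstep, hl'⟩ := List.isChain_cons_cons.1 hl
      have he' : (v :: l).getLast? = some (true, y) := by
        rwa [List.getLast?_cons_cons] at he
      obtain ⟨ih1, ih2⟩ := ih hl' he'
      obtain ⟨P1, P2⟩ := pathI (x := x) (y := y) (lam := 1) zero_le_one le_rfl key1 (v :: l) hl' he'
      have hlen : len (u :: v :: l) = (if u.1 = v.1 then dist u.2 v.2 else 0) + len (v :: l) := rfl
      obtain ⟨c, z'⟩ := v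
      refine ⟨fun z hz hle => ?_, fun w hw i t ht hle => ?_⟩
      · have hu : u = (true, z) := by simpa using hz
        subst hu
        rw [hlen] at hle
        cases c with
        | true =>
          rw [if_pos rfl] at hle
          have e1 := dist_triangle x z z'
          obtain ⟨e2, e3⟩ := ih1 z' rfl (by simp only at hle; linarith)
          have e4 := P1 z' rfl
          have e5 : dist x z + dist z z' = dist x z' := by
            simp only at hle
            linarith
          have e6 : z ∈ segment ℝ x z' := mem_segment_iff_wbtw.2 (dist_add_dist_eq_iff.1 e5)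
          have e7 : z ∈ segment ℝ x y :=
            (convex_segment x y).segment_subset (left_mem_segment ℝ x y) e2 e6
          refine ⟨e7, fun v hv => ?_⟩
          rcases List.mem_cons.1 hv with hv | hv
          · exact Or.inl ⟨z, e7, hv⟩
          · exact e3 v hv
        | false =>
          rw [if_neg (by simp)] at hle
          rcases hstep with h | ⟨i, t, ht, g1, g2⟩ | ⟨i, t, ht, g1, g2⟩
          · simp at h
          · obtain ⟨-, g3⟩ := Prod.mk.inj g1
            obtain ⟨-, g4⟩ := Prod.mk.inj g2
            obtain ⟨e1, e2, e3⟩ := ih2 z' rfl i t ht (by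
              rw [← g3, ← g4, dist_self]
              linarith)
            rw [← g3] at e2
            refine ⟨e2, fun v hv => ?_⟩
            rcases List.mem_cons.1 hv with hv | hv
            · exact Or.inl ⟨z, e2, hv⟩
            · exact e3 v hv
          · simp at g1
      · have hu : u = (false, w) := by simpa using hw
        subst hu
        rw [hlen] at hle
        cases c with
        | true =>
          rw [if_neg (by simp)] at hle
          rcases hstep with h | ⟨j, s, hs, g1, g2⟩ | ⟨j, s, hs, g1, g2⟩
          · simp at h
          · simp at g1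
          · obtain ⟨-, g3⟩ := Prod.mk.inj g1
            obtain ⟨-, g4⟩ := Prod.mk.inj g2
            subst g3
            subst g4
            have e1 := key i j t ht s hs
            have e2 := P1 _ rfl
            have e3 : 0 ≤ dist (ed q i t) (ed q j s) := dist_nonneg
            have e4 : dist (ed q i t) (ed q j s) ≤ 0 := by
              by_contra hcon
              push Not at hcon
              nlinarith
            have e5 : ed q i t = ed q j s := dist_le_zero.1 e4
            have e6 : ed p i t = ed p j s := inj i j t ht s hs e5
            obtain ⟨e7, e8⟩ := ih1 _ rfl (by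
              rw [e5, dist_self, e6] at hle
              linarith)
            refine ⟨e5.symm, e6 ▸ e7, fun v hv => ?_⟩
            rcases List.mem_cons.1 hv with hv | hv
            · exact Or.inr ⟨i, t, ht, e6 ▸ e7, by rw [hv, e5]⟩
            · exact e8 v hv
        | false =>
          rw [if_pos rfl] at hle
          simp only at hle
          have e1 := dist_triangle (ed q i t) w z'
          have e2 : 0 ≤ dist w z' := dist_nonneg
          have e3 : 0 ≤ dist (ed q i t) w := dist_nonneg
          have hlam : 0 ≤ lam := by linarith
          obtain ⟨e4, e5, e6⟩ := ih2 z' rfl i t ht (by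
            have e7 : lam * dist (ed q i t) z' ≤
                lam * (dist (ed q i t) w + dist w z') := mul_le_mul_of_nonneg_left e1 hlam
            nlinarith)
          have e7 := P2 z' rfl i t ht
          rw [← e4, dist_self] at e7
          have e8 : 0 ≤ lam * dist (ed q i t) w := mul_nonneg hlam e3
          have e9 : dist w z' ≤ 0 := by linarith
          have e10 : w = z' := dist_le_zero.1 e9
          refine ⟨e10.trans e4, e5, fun v hv => ?_⟩
          rcases List.mem_cons.1 hv with hv | hv
          · exact Or.inr ⟨i, t, ht, e5, by rw [hv, e10, e4]⟩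
          · exact e6 v hv
-- END row tight

end Pool.Agent.Gpd
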